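import Pool.Agent.helper86.NF.SpecC
import Pool.Agent.helper78.ZD.CMA

/-!
# Project nf (MP_4467b5_nt), module NVM: mean values of powers (after `Pool/Agent/helper78/ZD/CMA.lean`)
-/

set_option autoImplicit false

open Complex MeasureTheory

namespace Pool.Agent.NF

open Pool.Agent.helper84.DM Pool.Agent.helper78.ED Pool.Agent.DH Pool.Agent.ZD

theorem NVM (h1 : MVK_stmt) : NVM_stmt := by
  intro ε K hε hK
  obtain ⟨κ, hκ⟩ : ∃ κ : ℝ, κ = min 1 (ε / (8 * K)) := ⟨_, rfl⟩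
  have hKpos : (0 : ℝ) < K := by exact_mod_cast hK
  have hκ0 : 0 < κ := by rw [hκ]; exact lt_min one_pos (by positivity)
  have hκ1 : κ ≤ 1 := by rw [hκ]; exact min_le_left _ _
  have hκ2 : κ ≤ ε / (8 * K) := by rw [hκ]; exact min_le_right _ _
  refine ⟨κ, hκ0, hκ1, ?_⟩
  intro C₁ hC₁
  have hmv : ∀ k : ℕ, ∃ C : ℝ, 0 < C ∧ (1 ≤ k →
      ∀ T : ℝ, 1 ≤ T → ∀ W : Finset ℝ, Sep 0 T W → ∀ (N : ℕ) (a : ℕ → ℂ) (A V : ℝ), 1 ≤ N →
      (N : ℝ) ≤ T → 0 ≤ V → (∀ n ∈ Finset.Ioc N (2 * N), ‖a n‖ ≤ A) →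
      (∀ t ∈ W, V ≤ ‖DP N a t‖) →
      (W.card : ℝ) * V ^ (2 * k) ≤
        C * A ^ (2 * k) * T ^ (ε / 4) * ((T + (N : ℝ) ^ k) * (N : ℝ) ^ k)) := by
    intro k
    rcases Nat.eq_zero_or_pos k with hk | hk
    · exact ⟨1, one_pos, fun h => absurd h (by omega)⟩
    · obtain ⟨C, hC, h⟩ := h1 (ε / 4) k (by positivity) hk
      exact ⟨C, hC, fun _ => h⟩
  choose c hc0 hc using hmv
  obtain ⟨CM, hCM⟩ : ∃ CM : ℝ, CM = 1 + ∑ k ∈ Finset.Icc 1 K, c k := ⟨_, rfl⟩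
  have hCM0 : 0 < CM := by
    rw [hCM]
    have : 0 ≤ ∑ k ∈ Finset.Icc 1 K, c k := Finset.sum_nonneg fun i _ => (hc0 i).le
    linarith
  have hcle : ∀ k ∈ Finset.Icc 1 K, c k ≤ CM := by
    intro k hk
    rw [hCM]
    have : c k ≤ ∑ k ∈ Finset.Icc 1 K, c k :=
      Finset.single_le_sum (f := c) (fun i _ => (hc0 i).le) hk
    linarith
  obtain ⟨B, hB⟩ : ∃ B : ℝ, B = 4 * C₁ ^ 2 := ⟨_, rfl⟩
  have hB0 : 0 ≤ B := by rw [hB]; positivity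
  obtain ⟨E, hE⟩ : ∃ E : ℝ, E = (1 + B * (8 * (K + 1) / ε)) ^ (2 * K) := ⟨_, rfl⟩
  have hE0 : 0 < E := by
    rw [hE]
    have : 0 ≤ B * (8 * ((K : ℝ) + 1) / ε) := by positivity
    positivity
  refine ⟨CM * E, 3, by positivity, ?_⟩
  intro T hT3 σ N k hN1' hNT hk1 hkK a ha W hW hV
  have hT0 : 0 < T := by linarith
  have hT1' : 1 ≤ T := by linarith
  have hlog : 0 < Real.log T := Real.log_pos (by linarith)
  have hNpos : 0 < (N : ℝ) := by exact_mod_cast hN1'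
  obtain ⟨M, hM⟩ : ∃ M : ℝ, M = (N : ℝ) ^ k := ⟨_, rfl⟩
  have hM0 : 0 < M := by rw [hM]; positivity
  have hL : 0 < 4 * C₁ * Real.log T := by positivity
  have hVnn : 0 ≤ (N : ℝ) ^ σ / (4 * C₁ * Real.log T) := by positivity
  have hmain := hc k hk1 T hT1' W hW N a (C₁ * T ^ κ) ((N : ℝ) ^ σ / (4 * C₁ * Real.log T))
    hN1' hNT hVnn ha hV
  rw [← hM] at hmain ⊢
  have hNσ : ((N : ℝ) ^ σ) ^ (2 * k) = M ^ (2 * σ) := by
    rw [hM, ← Real.rpow_natCast ((N : ℝ) ^ σ) (2 * k), ← Real.rpow_mul hNpos.le,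
      ← Real.rpow_natCast (N : ℝ) k, ← Real.rpow_mul hNpos.le]
    congr 1
    push_cast
    ring
  have halg := CMA_alg _ _ M σ _ _ k hL hM0 hNσ hmain
  have hlg := CMA_log ε B K k hε hB0 hkK T hT1'
  rw [← hE] at hlg
  -- the power of `T ^ κ`
  have hkK' : (k : ℝ) ≤ K := by exact_mod_cast hkK
  have hTk : (T ^ κ) ^ (2 * k) ≤ T ^ (ε / 4) := by
    rw [← Real.rpow_natCast (T ^ κ) (2 * k), ← Real.rpow_mul hT0.le]
    apply Real.rpow_le_rpow_of_exponent_le hT1'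
    push_cast
    have h5 : κ * (2 * k) ≤ ε / (8 * K) * (2 * K) :=
      mul_le_mul hκ2 (by linarith) (by positivity) (by positivity)
    have h6 : ε / (8 * K) * (2 * K) = ε / 4 := by
      field_simp
      norm_num
    linarith
  have hcomb : (C₁ * T ^ κ) ^ (2 * k) * (4 * C₁ * Real.log T) ^ (2 * k) =
      (B * Real.log T) ^ (2 * k) * (T ^ κ) ^ (2 * k) := by
    rw [← mul_pow, ← mul_pow, hB]
    congr 1
    ring
  have hTe0 : 0 < T ^ (ε / 4) := Real.rpow_pos_of_pos hT0 _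
  have hcomb2 : (C₁ * T ^ κ) ^ (2 * k) * (4 * C₁ * Real.log T) ^ (2 * k) ≤
      E * T ^ (ε / 4) * T ^ (ε / 4) := by
    rw [hcomb]
    exact mul_le_mul hlg hTk (by positivity) (by positivity)
  have hkI : k ∈ Finset.Icc 1 K := Finset.mem_Icc.2 ⟨hk1, hkK⟩
  have hckM : c k ≤ CM := hcle k hkI
  have hstep : (W.card : ℝ) ≤ c k * ((C₁ * T ^ κ) ^ (2 * k) * (4 * C₁ * Real.log T) ^ (2 * k)) *
      T ^ (ε / 4) * ((T + M) * M * M ^ (-(2 * σ))) := by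
    refine halg.trans (le_of_eq ?_)
    ring
  have hX0 : 0 ≤ (T + M) * M * M ^ (-(2 * σ)) := by positivity
  have h7 : c k * ((C₁ * T ^ κ) ^ (2 * k) * (4 * C₁ * Real.log T) ^ (2 * k)) ≤
      CM * (E * T ^ (ε / 4) * T ^ (ε / 4)) :=
    mul_le_mul hckM hcomb2 (by positivity) hCM0.le
  have h10 : T ^ (ε / 4) * T ^ (ε / 4) * T ^ (ε / 4) ≤ T ^ ε := by
    rw [← Real.rpow_add hT0, ← Real.rpow_add hT0]
    exact Real.rpow_le_rpow_of_exponent_le hT1' (by linarith)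
  calc (W.card : ℝ) ≤ c k * ((C₁ * T ^ κ) ^ (2 * k) * (4 * C₁ * Real.log T) ^ (2 * k)) *
      T ^ (ε / 4) * ((T + M) * M * M ^ (-(2 * σ))) := hstep
    _ ≤ CM * (E * T ^ (ε / 4) * T ^ (ε / 4)) * T ^ (ε / 4) * ((T + M) * M * M ^ (-(2 * σ))) :=
        mul_le_mul_of_nonneg_right (mul_le_mul_of_nonneg_right h7 hTe0.le) hX0
    _ = CM * E * (T ^ (ε / 4) * T ^ (ε / 4) * T ^ (ε / 4)) * ((T + M) * M * M ^ (-(2 * σ))) := by
        ring
    _ ≤ CM * E * T ^ ε * ((T + M) * M * M ^ (-(2 * σ))) :=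
        mul_le_mul_of_nonneg_right (mul_le_mul_of_nonneg_left h10 (by positivity)) hX0

end Pool.Agent.NF
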