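import Pool.Agent.helper4.NF.SpecA
import Pool.Agent.helper20.ZD.K2B

/-!
# Project nf (MP_4467b5_nt), module KGT: the triple kernel (after `Pool/Agent/helper90/ZD/K3B.lean`)
-/

set_option autoImplicit false

open Complex MeasureTheory

namespace Pool.Agent.NF

open Pool.Agent.helper84.DM Pool.Agent.helper78.ED Pool.Agent.DH Pool.Agent.ZD

/-- `g(e^x) e^x`. -/
noncomputable def KGT_w (g : ℝ → ℝ) (x : ℝ) : ℝ := g (Real.exp x) * Real.exp x

theorem KGT_supp (g : ℝ → ℝ) (hg : SR g) (x : ℝ) (h : KGT_w g x ≠ 0) :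
    1 / 2 ≤ Real.exp x ∧ Real.exp x ≤ 64 := by
  have h0 : g (Real.exp x) ≠ 0 := left_ne_zero_of_mul h
  constructor
  · by_contra hcon
    apply h0
    have : ((g (Real.exp x) : ℝ) : ℂ) = 0 := hg.2 (Real.exp x) (Or.inl (not_le.1 hcon))
    exact_mod_cast this
  · by_contra hcon
    apply h0
    have : ((g (Real.exp x) : ℝ) : ℂ) = 0 := hg.2 (Real.exp x) (Or.inr (not_le.1 hcon))
    exact_mod_cast this

theorem KGT_pair (h2 : PHS_stmt) (g : ℝ → ℝ) (hg : SR g) (y a : ℝ) (ha : 5 < |a|) :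
    KGT_w g (y + a) * ZD.phi y = 0 := by
  by_contra hcon
  have h3 : KGT_w g (y + a) ≠ 0 := left_ne_zero_of_mul hcon
  have h4 : ZD.phi y ≠ 0 := right_ne_zero_of_mul hcon
  obtain ⟨h5, h6⟩ := KGT_supp g hg _ h3
  obtain ⟨h7, h8⟩ := K2B_phi h2 _ h4
  rw [Real.exp_add] at h5 h6
  have h9 := K2B_e5
  have hy : 0 < Real.exp y := Real.exp_pos y
  rcases lt_abs.1 ha with h | h
  · have h10 : Real.exp 5 < Real.exp a := Real.exp_lt_exp.2 h
    nlinarith
  · have h10 : Real.exp 5 < Real.exp (-a) := Real.exp_lt_exp.2 h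
    have h11 : Real.exp a * Real.exp (-a) = 1 := by rw [← Real.exp_add]; simp
    have h12 : 0 < Real.exp a := Real.exp_pos a
    have h13 : Real.exp a * 128 < 1 := by nlinarith
    nlinarith

/-- one term -/
theorem KGT_term (h1 : CHX_stmt) (h2 : PHS_stmt) (h3 : RD_stmt) (h4 : SBO_stmt) (g : ℝ → ℝ)
    (hg : SR g) : ∃ C : ℝ, 0 ≤ C ∧ ∀ a b ξ : ℝ, |a| ≤ 5 → |b| ≤ 5 →
      ‖∫ y : ℝ, ((KGT_w g (y + a) * KGT_w g (y + b) * ZD.phi y : ℝ) : ℂ) *
        ee (-(ξ * Real.exp y))‖ ≤ C * kap ξ := by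
  have hSB : SB (fun y => ((Phi y : ℝ) : ℂ)) := h2.2.1
  obtain ⟨-, hx, -, -, -⟩ := h4 _ hSB
  obtain ⟨-, hxx, -, -, -⟩ := h4 _ hx
  obtain ⟨hd, -, -, -, B0, hB0, hB0'⟩ := h4 _ hg
  obtain ⟨hdd, -, -, -, B1, hB1, hB1'⟩ := h4 _ hd
  obtain ⟨-, -, -, -, B2, hB2, hB2'⟩ := h4 _ hdd
  have hbd : ∃ B : ℝ, ∀ x, ‖(fun y => ((g y : ℝ) : ℂ)) x‖ ≤ B ∧
      ‖deriv (fun y => ((g y : ℝ) : ℂ)) x‖ ≤ B ∧
      ‖deriv (deriv (fun y => ((g y : ℝ) : ℂ))) x‖ ≤ B :=
    ⟨max B0 (max B1 B2), fun x => ⟨(hB0' x).trans (le_max_left _ _),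
      (hB1' x).trans ((le_max_left _ _).trans (le_max_right _ _)),
      (hB2' x).trans ((le_max_right _ _).trans (le_max_right _ _))⟩⟩
  obtain ⟨C, hC, hC'⟩ := h3 (fun y => ((g y : ℝ) : ℂ)) (fun y => ((g y : ℝ) : ℂ))
    (fun x => (x : ℂ) * ((x : ℂ) * ((Phi x : ℝ) : ℂ))) (contDiff_infty.1 hg.1 2)
    (contDiff_infty.1 hg.1 2) hxx hbd hbd
  refine ⟨Real.exp 5 * Real.exp 5 * C, mul_nonneg (by positivity) hC, ?_⟩
  intro a b ξ ha hb
  have hkap : 0 ≤ kap ξ := by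
    unfold kap
    positivity
  have hα : |Real.exp a| ≤ Real.exp 5 := by
    rw [abs_of_pos (Real.exp_pos a)]
    exact Real.exp_le_exp.2 (le_of_abs_le ha)
  have hβ : |Real.exp b| ≤ Real.exp 5 := by
    rw [abs_of_pos (Real.exp_pos b)]
    exact Real.exp_le_exp.2 (le_of_abs_le hb)
  have h5 := hC' (Real.exp a) (Real.exp b) ξ hα hβ
  have h6 : ∫ y : ℝ, ((KGT_w g (y + a) * KGT_w g (y + b) * ZD.phi y : ℝ) : ℂ) *
        ee (-(ξ * Real.exp y)) =
      ((Real.exp a * Real.exp b : ℝ) : ℂ) * ∫ s : ℝ, (fun y => ((g y : ℝ) : ℂ)) (Real.exp a * s) *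
        (fun y => ((g y : ℝ) : ℂ)) (Real.exp b * s) *
        (fun x : ℝ => (x : ℂ) * ((x : ℂ) * ((Phi x : ℝ) : ℂ))) s * ee (-(ξ * s)) := by
    have h7 := h1.1 (fun s => ((g (Real.exp a * s) : ℝ) : ℂ) * ((Real.exp a : ℝ) : ℂ) * (s : ℂ) *
      (((g (Real.exp b * s) : ℝ) : ℂ) * ((Real.exp b : ℝ) : ℂ) * (s : ℂ)) * ee (-(ξ * s)))
    rw [← integral_const_mul]
    have h8 : ∀ y : ℝ, ((KGT_w g (y + a) * KGT_w g (y + b) * ZD.phi y : ℝ) : ℂ) *
          ee (-(ξ * Real.exp y)) =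
        ((ZD.phi y : ℝ) : ℂ) * ((((g (Real.exp a * Real.exp y) : ℝ) : ℂ) * ((Real.exp a : ℝ) : ℂ) *
          ((Real.exp y : ℝ) : ℂ)) * (((g (Real.exp b * Real.exp y) : ℝ) : ℂ) *
          ((Real.exp b : ℝ) : ℂ) * ((Real.exp y : ℝ) : ℂ)) * ee (-(ξ * Real.exp y))) := by
      intro y
      have h9 : ∀ c : ℝ, KGT_w g (y + c) = g (Real.exp c * Real.exp y) *
          (Real.exp c * Real.exp y) := by
        intro c
        unfold KGT_w
        rw [Real.exp_add, mul_comm (Real.exp y)]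
      rw [h9, h9]
      push_cast
      ring
    simp only [h8]
    rw [← h7]
    congr 1
    funext s
    push_cast
    ring
  rw [h6, norm_mul]
  have h10 : ‖((Real.exp a * Real.exp b : ℝ) : ℂ)‖ = |Real.exp a| * |Real.exp b| := by
    rw [Complex.norm_real, Real.norm_eq_abs, abs_mul]
  rw [h10, mul_assoc (Real.exp 5 * Real.exp 5)]
  exact mul_le_mul (mul_le_mul hα hβ (abs_nonneg _) (Real.exp_pos 5).le) h5 (norm_nonneg _)
    (by positivity)

theorem KGT (h1 : CHX_stmt) (h2 : PHS_stmt) (h3 : RD_stmt) (h4 : SBO_stmt) : KGT_stmt := by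
  intro g hg
  obtain ⟨C, hC, hC'⟩ := KGT_term h1 h2 h3 h4 g hg
  refine ⟨C + 1, by linarith, ?_⟩
  intro X X₀ M M₀ a b hX₀
  have hkap : ∀ x : ℝ, 0 ≤ kap x := by
    intro x
    unfold kap
    positivity
  have hbig : (5 < |a| ∨ 5 < |b|) →
      ∫ z : ℝ, GW g X M (z + a) * (starRingEnd ℂ) (GW g X M (z + b)) * GE X₀ M₀ z = 0 := by
    intro hab
    have h6 : ∀ z : ℝ, GW g X M (z + a) * (starRingEnd ℂ) (GW g X M (z + b)) * GE X₀ M₀ z = 0 := by
      intro z
      have h7 : KGT_w g (z + a) * ZD.phi z = 0 ∨ KGT_w g (z + b) * ZD.phi z = 0 := by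
        rcases hab with h | h
        · exact Or.inl (KGT_pair h2 g hg z a h)
        · exact Or.inr (KGT_pair h2 g hg z b h)
      have h8 : ∀ c : ℝ, GW g X M (z + c) = ((KGT_w g (z + c) : ℝ) : ℂ) * EE X M (z + c) :=
        fun c => rfl
      rw [h8, h8]
      unfold GE
      rcases h7 with h | h
      · rcases mul_eq_zero.1 h with h9 | h9
        · rw [h9]; simp
        · rw [h9]; simp
      · rcases mul_eq_zero.1 h with h9 | h9
        · rw [h9]; simp
        · rw [h9]; simp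
    simp only [h6, integral_zero]
  refine ⟨hbig, ?_⟩
  have hS : 0 ≤ ∑ m₁ ∈ MM M, ∑ m₂ ∈ MM M, ∑ m₃ ∈ MM M₀,
      kap (X * ((m₁ : ℝ) * Real.exp a - m₂ * Real.exp b) + X₀ * m₃) :=
    Finset.sum_nonneg (fun m _ => Finset.sum_nonneg (fun m' _ =>
      Finset.sum_nonneg (fun m'' _ => hkap _)))
  by_cases hab : 5 < |a| ∨ 5 < |b|
  · rw [hbig hab, norm_zero]
    exact mul_nonneg (mul_nonneg (mul_nonneg (by linarith) (sq_nonneg X)) hX₀) hS
  · push Not at hab
    obtain ⟨ha, hb⟩ := hab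
    have hphc : Continuous ZD.phi := by
      unfold ZD.phi
      exact (h2.1.continuous.comp Real.continuous_exp).mul Real.continuous_exp
    have hgc : Continuous g := by
      have h := Complex.continuous_re.comp hg.1.continuous
      exact h
    have hwc : Continuous (KGT_w g) := by
      unfold KGT_w
      exact (hgc.comp Real.continuous_exp).mul Real.continuous_exp
    have hint : ∀ ξ : ℝ, Integrable (fun y : ℝ =>
        ((KGT_w g (y + a) * KGT_w g (y + b) * ZD.phi y : ℝ) : ℂ) * ee (-(ξ * Real.exp y))) := by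
      intro ξ
      apply Continuous.integrable_of_hasCompactSupport
      · have h7 : Continuous (fun y : ℝ => KGT_w g (y + a) * KGT_w g (y + b) * ZD.phi y) :=
          ((hwc.comp (continuous_id.add continuous_const)).mul
            (hwc.comp (continuous_id.add continuous_const))).mul hphc
        have h8 : Continuous (fun y : ℝ => ee (-(ξ * Real.exp y))) :=
          K2B_ee_cont.comp (continuous_const.mul Real.continuous_exp).neg
        exact (Complex.continuous_ofReal.comp h7).mul h8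
      · apply HasCompactSupport.intro (isCompact_Icc : IsCompact (Set.Icc (-5 : ℝ) 5))
        intro y hy
        rw [K2B_phi_cpt h2 y hy]
        simp
    have hexp : ∀ z : ℝ, GW g X M (z + a) * (starRingEnd ℂ) (GW g X M (z + b)) * GE X₀ M₀ z =
        ∑ m₁ ∈ MM M, ∑ m₂ ∈ MM M, ∑ m₃ ∈ MM M₀, ((X : ℂ) ^ 2 * (X₀ : ℂ) *
          (((KGT_w g (z + a) * KGT_w g (z + b) * ZD.phi z : ℝ) : ℂ) *
          ee (-((X * ((m₁ : ℝ) * Real.exp a - m₂ * Real.exp b) + X₀ * m₃) * Real.exp z)))) := by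
      intro z
      have e1 : GW g X M (z + a) = ((KGT_w g (z + a) : ℝ) : ℂ) * ((X : ℂ) *
          ∑ m ∈ MM M, ee (-((m : ℝ) * X * Real.exp (z + a)))) := rfl
      have e2 : (starRingEnd ℂ) (GW g X M (z + b)) = ((KGT_w g (z + b) : ℝ) : ℂ) * ((X : ℂ) *
          ∑ m ∈ MM M, ee ((m : ℝ) * X * Real.exp (z + b))) := by
        have e3 : GW g X M (z + b) = ((KGT_w g (z + b) : ℝ) : ℂ) * ((X : ℂ) *
          ∑ m ∈ MM M, ee (-((m : ℝ) * X * Real.exp (z + b)))) := rfl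
        rw [e3, map_mul, map_mul, map_sum, Complex.conj_ofReal, Complex.conj_ofReal]
        congr 2
        refine Finset.sum_congr rfl fun m _ => ?_
        rw [K2B_ee_conj, neg_neg]
      have e4 : GE X₀ M₀ z = ((ZD.phi z : ℝ) : ℂ) * ((X₀ : ℂ) *
          ∑ m ∈ MM M₀, ee (-((m : ℝ) * X₀ * Real.exp z))) := rfl
      rw [e1, e2, e4]
      have h9 : ∀ S T U : ℂ, ((KGT_w g (z + a) : ℝ) : ℂ) * ((X : ℂ) * S) *
          (((KGT_w g (z + b) : ℝ) : ℂ) * ((X : ℂ) * T)) * (((ZD.phi z : ℝ) : ℂ) * ((X₀ : ℂ) * U)) =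
          ((X : ℂ) ^ 2 * (X₀ : ℂ) *
            ((KGT_w g (z + a) * KGT_w g (z + b) * ZD.phi z : ℝ) : ℂ)) * (S * (T * U)) := by
        intro S T U
        push_cast
        ring
      rw [h9, Finset.sum_mul_sum (MM M) (MM M₀), Finset.sum_mul, Finset.mul_sum]
      apply Finset.sum_congr rfl
      intro m₁ _
      rw [Finset.mul_sum, Finset.mul_sum]
      apply Finset.sum_congr rfl
      intro m₂ _
      rw [Finset.mul_sum, Finset.mul_sum]
      apply Finset.sum_congr rfl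
      intro m₃ _
      rw [K2B_ee_add, K2B_ee_add, mul_assoc]
      congr 3
      rw [Real.exp_add, Real.exp_add]
      ring
    simp only [hexp]
    rw [integral_finsetSum _ (fun m _ => integrable_finsetSum _ (fun m' _ =>
      integrable_finsetSum _ (fun m'' _ => (hint _).const_mul _)))]
    rw [Finset.mul_sum]
    refine (norm_sum_le _ _).trans (Finset.sum_le_sum ?_)
    intro m₁ _
    rw [integral_finsetSum _ (fun m' _ =>
      integrable_finsetSum _ (fun m'' _ => (hint _).const_mul _)), Finset.mul_sum]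
    refine (norm_sum_le _ _).trans (Finset.sum_le_sum ?_)
    intro m₂ _
    rw [integral_finsetSum _ (fun m'' _ => (hint _).const_mul _), Finset.mul_sum]
    refine (norm_sum_le _ _).trans (Finset.sum_le_sum ?_)
    intro m₃ _
    rw [integral_const_mul, norm_mul]
    have hn : ‖(X : ℂ) ^ 2 * (X₀ : ℂ)‖ = X ^ 2 * X₀ := by
      rw [norm_mul, norm_pow, Complex.norm_real, Complex.norm_real, Real.norm_eq_abs,
        Real.norm_eq_abs, sq_abs, abs_of_nonneg hX₀]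
    rw [hn]
    obtain ⟨q, hq⟩ : ∃ q : ℝ, q = X * ((m₁ : ℝ) * Real.exp a - m₂ * Real.exp b) + X₀ * m₃ :=
      ⟨_, rfl⟩
    rw [← hq]
    have h11 := hC' a b q ha hb
    have h12 := hkap q
    have hXX : 0 ≤ X ^ 2 * X₀ := mul_nonneg (sq_nonneg X) hX₀
    have h14 := mul_le_mul_of_nonneg_left h11 hXX
    have h15 := mul_nonneg hXX h12
    have h13 : (C + 1) * X ^ 2 * X₀ * kap q = X ^ 2 * X₀ * (C * kap q) + X ^ 2 * X₀ * kap q := by
      ring
    rw [h13]
    linarith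

end Pool.Agent.NF
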